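import Mathlib

set_option autoImplicit false

namespace Pool.Agent.H.MP_fd67f7_an

open Set Metric Filter Topology

def L (n : ℕ) : ℕ := Nat.log 3 (n + 1)

def e (n : ℕ) : ℝ := (-1) ^ L n

theorem e_or (n : ℕ) : e n = 1 ∨ e n = -1 := neg_one_pow_eq_or ℝ _

def XS : Set (ℕ → ℝ) := {z | (∀ n, |z n| ≤ 1) ∧ (∀ n, z (n + 1) = 0 ∨ |z n| = 1) ∧
  ∀ N, ∃ k, ∀ n < N, 0 ≤ z n * e (k + n)}

theorem closed : IsClosed XS := by
  have : XS = (⋂ n, {z : ℕ → ℝ | |z n| ≤ 1}) ∩ ((⋂ n, {z : ℕ → ℝ | z (n + 1) = 0} ∪ {z | |z n| = 1}) ∩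
      ⋂ N, ⋃ w ∈ range (fun k => fun n : Fin N => e (k + n)),
        ⋂ n : Fin N, {z : ℕ → ℝ | 0 ≤ z n * w n}) := by
    ext z
    simp only [XS, mem_ofPred_eq, mem_inter_iff, mem_iInter, mem_union, mem_iUnion, mem_range,
      exists_prop, exists_exists_eq_and, Fin.forall_iff]
  rw [this]
  refine (isClosed_iInter fun n => isClosed_le (by fun_prop) (by fun_prop)).inter
    ((isClosed_iInter fun n => (isClosed_eq (by fun_prop) (by fun_prop)).union
      (isClosed_eq (by fun_prop) (by fun_prop))).inter (isClosed_iInter fun N =>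
      Set.Finite.isClosed_biUnion ?_ fun w _ => isClosed_iInter fun n =>
        isClosed_le (by fun_prop) (by fun_prop)))
  refine (Set.Finite.pi' (fun _ : Fin N => toFinite ({1, -1} : Set ℝ))).subset ?_
  rintro _ ⟨k, rfl⟩ n
  exact e_or _

theorem compact : IsCompact XS :=
  (isCompact_univ_pi fun _ : ℕ => isCompact_Icc (a := (-1 : ℝ)) (b := 1)).of_isClosed_subset closed
    fun _ hz n _ => abs_le.1 (hz.1 n)

theorem pre {z : ℕ → ℝ} (hz : z ∈ XS) {j : ℕ} (h : z j ≠ 0) : ∀ n < j, |z n| = 1 := by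
  induction j with
  | zero => simp
  | succ j ih =>
    have h1 := (hz.2.1 j).resolve_left h
    intro n hn
    rcases Nat.lt_succ_iff_lt_or_eq.1 hn with h2 | rfl
    · exact ih (fun h0 => by simp [h0] at h1) n h2
    · exact h1

theorem post {z : ℕ → ℝ} (hz : z ∈ XS) {j : ℕ} (h : |z j| ≠ 1) : ∀ n, j < n → z n = 0 :=
  fun n hn => by_contra fun h0 => h (pre hz h0 j hn)

def cl (t : ℝ) : ℝ := max 0 (min t 1)

def tr (s : ℝ) (z : ℕ → ℝ) (n : ℕ) : ℝ := max (-cl (s - n)) (min (cl (s - n)) (z n))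

theorem cl_mem (t : ℝ) : 0 ≤ cl t ∧ cl t ≤ 1 := ⟨le_max_left _ _, max_le zero_le_one (min_le_right _ _)⟩

theorem cl_one {t : ℝ} (h : 1 ≤ t) : cl t = 1 := by simp [cl, h]

theorem cl_zero {t : ℝ} (h : t ≤ 0) : cl t = 0 := by simp [cl, h]

theorem tr_eq {s : ℝ} {z : ℕ → ℝ} (hz : z ∈ XS) {n : ℕ} (h : 1 ≤ s - n) : tr s z n = z n := by
  have := abs_le.1 (hz.1 n)
  rw [tr, cl_one h, min_eq_right this.2, max_eq_right this.1]

theorem tr_zero {s : ℝ} (z : ℕ → ℝ) {n : ℕ} (h : s - n ≤ 0) : tr s z n = 0 := by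
  simp [tr, cl_zero h]

theorem tr_mem (s : ℝ) {z : ℕ → ℝ} (hz : z ∈ XS) : tr s z ∈ XS := by
  refine ⟨fun n => ?_, fun n => ?_, fun N => ?_⟩
  · have := cl_mem (s - n)
    rw [tr, abs_le]
    exact ⟨le_max_of_le_left (by linarith), max_le (by linarith) (min_le_of_left_le this.2)⟩
  · rcases le_total (s - (n + 1 : ℕ)) 0 with h | h
    · exact Or.inl (tr_zero z h)
    · rcases hz.2.1 n with h1 | h1
      · left
        have := cl_mem (s - (n + 1 : ℕ))
        rw [tr, h1, min_eq_right this.1, max_eq_right (by linarith)]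
      · right
        rw [tr_eq hz (by push_cast at h; linarith), h1]
  · obtain ⟨k, hk⟩ := hz.2.2 N
    refine ⟨k, fun n hn => ?_⟩
    have h1 := hk n hn
    have h2 := cl_mem (s - n)
    rw [tr]
    rcases e_or (k + n) with h | h <;> rw [h] at h1 ⊢
    · rw [mul_one] at h1 ⊢
      exact le_max_of_le_right (le_min h2.1 h1)
    · have : max (-cl (s - n)) (min (cl (s - n)) (z n)) ≤ 0 :=
        max_le (by linarith) (min_le_of_right_le (by linarith))
      linarith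

theorem arc (s0 : ℝ) (z : XS) :
    IsPreconnected (insert z ((fun s => (⟨tr s z, tr_mem s z.2⟩ : XS)) '' Ici s0)) := by
  have hc : Continuous fun s => (⟨tr s z, tr_mem s z.2⟩ : XS) := by
    refine Continuous.subtype_mk (continuous_pi fun n => ?_) _
    unfold tr cl; fun_prop
  refine (isPreconnected_Ici.image _ hc.continuousOn).subset_closure (subset_insert _ _)
    (insert_subset ?_ subset_closure)
  refine mem_closure_of_tendsto (b := atTop) (f := fun s => (⟨tr s z, tr_mem s z.2⟩ : XS)) ?_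
    ((eventually_ge_atTop s0).mono fun s hs => ⟨s, hs, rfl⟩)
  rw [tendsto_subtype_rng, tendsto_pi_nhds]
  intro n
  refine tendsto_const_nhds.congr' ((eventually_ge_atTop ((n : ℝ) + 1)).mono fun s hs => ?_)
  exact (tr_eq z.2 (by linarith)).symm

theorem cl_mono : Monotone cl := fun _ _ h => max_le_max le_rfl (min_le_min h le_rfl)

theorem tr_tr {s0 s : ℝ} (h : s0 ≤ s) (z : ℕ → ℝ) : tr s0 (tr s z) = tr s0 z := by
  ext n
  have h1 := cl_mono (show s0 - n ≤ s - n by linarith)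
  have h2 := (cl_mem (s0 - n)).1
  simp only [tr, max_def, min_def]
  split_ifs <;> linarith

theorem tr_btw {s0 s : ℝ} (h : s0 ≤ s) (z : ℕ → ℝ) (n : ℕ) {a η : ℝ} (h1 : |tr s0 z n - a| ≤ η)
    (h2 : |z n - a| ≤ η) : |tr s z n - a| ≤ η := by
  have h3 := cl_mono (show s0 - n ≤ s - n by linarith)
  have h4 := (cl_mem (s0 - n)).1
  rw [abs_le] at h1 h2 ⊢
  simp only [tr, max_def, min_def] at h1 ⊢
  split_ifs at h1 ⊢ <;> constructor <;> linarith [h1.1, h1.2, h2.1, h2.2]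

theorem star (z : XS) (s0 : ℝ) (N : ℕ) (η : ℝ) (h : ∀ n < N, |tr s0 z n - z.1 n| ≤ η) :
    IsPreconnected {w : XS | tr s0 w = tr s0 z ∧ ∀ n < N, |w.1 n - z.1 n| ≤ η} := by
  refine isPreconnected_of_forall ⟨tr s0 z, tr_mem s0 z.2⟩ fun w hw =>
    ⟨_, ?_, Or.inr ⟨s0, self_mem_Ici, Subtype.ext hw.1⟩, mem_insert _ _, arc s0 w⟩
  rintro _ (rfl | ⟨s, hs, rfl⟩)
  · exact hw
  · exact ⟨(tr_tr hs _).trans hw.1, fun n hn => tr_btw hs _ n (hw.1 ▸ h n hn) (hw.2 n hn)⟩

theorem zero_mem : (0 : ℕ → ℝ) ∈ XS := ⟨by simp, by simp, fun _ => ⟨0, by simp⟩⟩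

theorem tr0 (z : ℕ → ℝ) : tr 0 z = 0 := funext fun n => tr_zero z (by simp)

instance : ConnectedSpace XS where
  isPreconnected_univ := by simpa [tr0] using star ⟨0, zero_mem⟩ 0 0 0 (by simp)
  toNonempty := ⟨⟨0, zero_mem⟩⟩

theorem cont (n : ℕ) : Continuous fun w : XS => w.1 n :=
  (continuous_apply n).comp continuous_subtype_val

theorem box (z : XS) (N : ℕ) {η : ℝ} (h : 0 < η) : {w : XS | ∀ n < N, |w.1 n - z.1 n| < η} ∈ 𝓝 z := by
  have : {w : XS | ∀ n < N, |w.1 n - z.1 n| < η} =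
      ⋂ n ∈ Finset.range N, {w : XS | |w.1 n - z.1 n| < η} := by ext; simp
  rw [this, biInter_finset_mem]
  exact fun n _ => (isOpen_lt ((cont n).sub continuous_const).abs continuous_const).mem_nhds (by simpa using h)

theorem good (z : XS) (N : ℕ) {η : ℝ} (h : 0 < η) (h1 : η < 1) : ∃ s0,
    (∀ n < N, |tr s0 z n - z.1 n| ≤ η) ∧ {w : XS | tr s0 w = tr s0 z} ∈ 𝓝 z := by
  classical
  by_cases h0 : z.1 0 = 0
  · refine ⟨0, fun n _ => ?_, by simp [tr0]⟩
    rcases n with _ | n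
    · simp [tr0, h0, h.le]
    · simp [tr0, post z.2 (j := 0) (by simp [h0]) (n + 1) (by omega), h.le]
  have ex : ∃ j, z.1 (j + 1) = 0 ∨ N ≤ j := ⟨N, Or.inr le_rfl⟩
  obtain ⟨j, hj, hj0⟩ : ∃ j, (z.1 (j + 1) = 0 ∨ N ≤ j) ∧ z.1 j ≠ 0 := by
    refine ⟨Nat.find ex, Nat.find_spec ex, ?_⟩
    rcases hk : Nat.find ex with _ | k
    · exact h0
    · exact fun h => Nat.find_min ex (m := k) (by omega) (Or.inl h)
  have a1 := z.2.1 j
  have a2 := abs_pos.2 hj0
  set ρ := min |z.1 j| η with hρ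
  have ρ0 : 0 < ρ := lt_min a2 h
  have ρ1 : ρ ≤ η := min_le_right _ _
  have ρ2 : ρ ≤ |z.1 j| := min_le_left _ _
  have hc : cl (j + (|z.1 j| - ρ) - j) = |z.1 j| - ρ := by
    rw [add_sub_cancel_left, cl, min_eq_left (by linarith), max_eq_right (by linarith)]
  have lt : ∀ n < j, 1 ≤ j + (|z.1 j| - ρ) - n := fun n hn => by
    have : (n : ℝ) + 1 ≤ j := by exact_mod_cast hn
    linarith
  have gt : ∀ n, j < n → j + (|z.1 j| - ρ) - n ≤ 0 := fun n hn => by
    have : (j : ℝ) + 1 ≤ n := by exact_mod_cast hn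
    linarith
  refine ⟨j + (|z.1 j| - ρ), fun n hn => ?_, mem_of_superset (box z (j + 1) ρ0) fun w hw => ?_⟩
  · rcases lt_trichotomy n j with h2 | rfl | h2
    · simp [tr_eq z.2 (lt n h2), h.le]
    · rw [tr, hc, abs_le]
      simp only [max_def, min_def]
      rcases abs_cases (z.1 n) with h3 | h3 <;> split_ifs <;> constructor <;> linarith
    · have : z.1 n = 0 := by
        have h3 := hj.resolve_right (by omega)
        rcases (Nat.succ_le_of_lt h2).eq_or_lt with rfl | h4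
        · exact h3
        · exact post z.2 (j := j + 1) (by simp [h3]) n h4
      simp [tr_zero _ (gt n h2), this, h.le]
  · have b1 := abs_lt.1 (hw j (by omega))
    have b2 : w.1 j ≠ 0 := fun h0 => by
      rw [h0] at b1
      rcases abs_cases (z.1 j) with h3 | h3 <;> linarith [b1.1, b1.2]
    ext n
    rcases lt_trichotomy n j with h2 | rfl | h2
    · rw [tr_eq z.2 (lt n h2), tr_eq w.2 (lt n h2)]
      have c1 := pre z.2 hj0 n h2
      have c2 := pre w.2 b2 n h2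
      have c3 := abs_lt.1 (hw n (by omega))
      rcases abs_cases (z.1 n) with h3 | h3 <;> rcases abs_cases (w.1 n) with h4 | h4 <;>
        linarith [c3.1, c3.2]
    · rw [tr, tr, hc]
      simp only [max_def, min_def]
      rcases abs_cases (z.1 n) with h3 | h3 <;> split_ifs <;> linarith [b1.1, b1.2]
    · rw [tr_zero _ (gt n h2), tr_zero _ (gt n h2)]

theorem unbox (z : XS) {U : Set XS} (hU : U ∈ 𝓝 z) : ∃ N, ∃ η : ℝ, 0 < η ∧ η < 1 ∧
    {w : XS | ∀ n < N, |w.1 n - z.1 n| ≤ η} ⊆ U := by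
  obtain ⟨V, hV, hVU⟩ := (mem_nhds_subtype _ _ _).1 hU
  rw [nhds_pi, Filter.mem_pi'] at hV
  obtain ⟨I, t, ht, hI⟩ := hV
  have : ∀ᶠ η in 𝓝[>] (0 : ℝ), ∀ n ∈ I, closedBall (z.1 n) η ⊆ t n :=
    (eventually_all_finset I).2 fun n _ =>
      (eventually_closedBall_subset (ht n)).filter_mono nhdsWithin_le_nhds
  obtain ⟨η, h1, h2, h3⟩ := (this.and (Ioo_mem_nhdsGT one_pos)).exists
  refine ⟨I.sup id + 1, η, h2, h3, fun w hw => hVU (hI fun n hn => h1 n hn ?_)⟩
  exact hw n (Nat.lt_succ_of_le (Finset.le_sup (f := id) hn))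

instance : LocallyConnectedSpace XS := by
  refine locallyConnectedSpace_iff_connected_subsets.2 fun z U hU => ?_
  obtain ⟨N, η, h0, h1, hU⟩ := unbox z hU
  obtain ⟨s0, h2, h3⟩ := good z N h0 h1
  refine ⟨_, ?_, star z s0 N η h2, fun w hw => hU hw.2⟩
  exact mem_of_superset (inter_mem h3 (box z N h0)) fun w hw => ⟨hw.1, fun n hn => (hw.2 n hn).le⟩

theorem sep {z w : XS} (h : z ≠ w) : ∃ (φ : XS → ℝ) (a : ℝ), Continuous φ ∧
    a ∈ uIoo (φ z) (φ w) ∧ ∀ u v, φ u = a → φ v = a → u = v := by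
  classical
  have ex : ∃ n, z.1 n ≠ w.1 n := by
    by_contra hc
    push Not at hc
    exact h (Subtype.ext (funext hc))
  obtain ⟨n, hn, hlt⟩ : ∃ n, z.1 n ≠ w.1 n ∧ ∀ i < n, z.1 i = w.1 i :=
    ⟨Nat.find ex, Nat.find_spec ex, fun i hi => not_not.1 (Nat.find_min ex hi)⟩
  have h1 : ∀ i < n, |z.1 i| = 1 := by
    by_cases h0 : z.1 n = 0
    · exact fun i hi => hlt i hi ▸ pre w.2 (fun e => hn (h0.trans e.symm)) i hi
    · exact pre z.2 h0
  have h2 : ∀ u : XS, (∀ i < n, u.1 i = z.1 i) →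
      ∏ i ∈ Finset.range n, max 0 (z.1 i * u.1 i) = 1 := fun u hu =>
    Finset.prod_eq_one fun i hi => by
      have hi := Finset.mem_range.1 hi
      rw [hu i hi, ← abs_mul_abs_self, h1 i hi]; simp
  obtain ⟨a, ha, ha0⟩ : ∃ a ∈ uIoo (z.1 n) (w.1 n), a ≠ 0 := by
    have : (uIoo (z.1 n) (w.1 n)).Infinite := Ioo_infinite (inf_lt_sup.2 hn)
    obtain ⟨a, h3, h4⟩ := this.exists_notMem_finset {0}
    exact ⟨a, h3, by simpa using h4⟩
  have ha1 : |a| ≠ 1 := by
    have c1 := abs_le.1 (z.2.1 n)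
    have c2 := abs_le.1 (w.2.1 n)
    exact (abs_lt.2 ⟨(le_min c1.1 c2.1).trans_lt ha.1, ha.2.trans_le (max_le c1.2 c2.2)⟩).ne
  refine ⟨fun u => u.1 n * ∏ i ∈ Finset.range n, max 0 (z.1 i * u.1 i), a, (cont n).mul
    (continuous_finsetProd _ fun i _ => continuous_const.max (continuous_const.mul (cont i))), ?_, ?_⟩
  · simpa only [h2 z fun _ _ => rfl, h2 w fun i hi => (hlt i hi).symm, mul_one] using ha
  · have key : ∀ u : XS, u.1 n * ∏ i ∈ Finset.range n, max 0 (z.1 i * u.1 i) = a →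
        (∀ i < n, u.1 i = z.1 i) ∧ u.1 n = a := by
      intro u hu
      have c1 := mul_ne_zero_iff.1 (hu ▸ ha0)
      have c2 : ∀ i < n, u.1 i = z.1 i := fun i hi => by
        have c3 := Finset.prod_ne_zero_iff.1 c1.2 i (Finset.mem_range.2 hi)
        have c4 : 0 < z.1 i * u.1 i := by
          by_contra hc
          exact c3 (max_eq_left (not_lt.1 hc))
        have c5 := pre u.2 c1.1 i hi
        have c6 := h1 i hi
        rcases abs_cases (z.1 i) with h3 | h3 <;> rcases abs_cases (u.1 i) with h4 | h4 <;>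
          nlinarith
      exact ⟨c2, by rwa [h2 u c2, mul_one] at hu⟩
    intro u v hu hv
    obtain ⟨c1, c2⟩ := key u hu
    obtain ⟨c3, c4⟩ := key v hv
    ext i
    rcases lt_trichotomy i n with h3 | rfl | h3
    · rw [c1 i h3, c3 i h3]
    · rw [c2, c4]
    · rw [post u.2 (c2 ▸ ha1) i h3, post v.2 (c4 ▸ ha1) i h3]

theorem no_circle (g : Circle → XS) (hg : Continuous g) : ¬ Function.Injective g := by
  intro inj
  have pi := Real.pi_pos
  have ne : ∀ s t : ℝ, s < t → t < s + 2 * Real.pi → Circle.exp s ≠ Circle.exp t := by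
    intro s t h1 h2 h
    obtain ⟨m, hm⟩ := Circle.exp_eq_exp.1 h
    have a1 : (m : ℝ) < 0 := by nlinarith
    have a2 : (-1 : ℝ) < m := by nlinarith
    have a3 : m < 0 := by exact_mod_cast a1
    have a4 : -1 < m := by exact_mod_cast a2
    omega
  obtain ⟨φ, a, hφ, ha, hu⟩ := sep (inj.ne (ne 0 Real.pi pi (by linarith)))
  have hc : Continuous fun t : ℝ => φ (g (Circle.exp t)) := by fun_prop
  have ivt : ∀ s t : ℝ, s ≤ t → a ∈ uIoo (φ (g (Circle.exp s))) (φ (g (Circle.exp t))) →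
      ∃ u ∈ Ioo s t, φ (g (Circle.exp u)) = a := by
    intro s t hst h
    rcases le_total (φ (g (Circle.exp s))) (φ (g (Circle.exp t))) with h1 | h1
    · exact intermediate_value_Ioo hst hc.continuousOn (by rwa [uIoo_of_le h1] at h)
    · exact intermediate_value_Ioo' hst hc.continuousOn (by rwa [uIoo_of_ge h1] at h)
  obtain ⟨u, u1, u2⟩ := ivt 0 Real.pi pi.le ha
  obtain ⟨v, v1, v2⟩ := ivt Real.pi (2 * Real.pi) (by linarith) (by
    rwa [Circle.exp_two_pi, ← Circle.exp_zero, uIoo_comm])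
  exact ne u v (by linarith [u1.2, v1.1]) (by linarith [u1.1, v1.2]) (inj (hu _ _ u2 v2))

end Pool.Agent.H.MP_fd67f7_an
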