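import Pool.Agent.H.MP_fd67f7_an.A

set_option autoImplicit false

namespace Pool.Agent.H.MP_fd67f7_an

open Set Metric Filter Topology

open Classical in
noncomputable def fr (p : ℕ → Prop) (n : ℕ) : ℝ := (((Finset.range (n + 1)).filter p).card : ℝ) / n

noncomputable def cnt {X : Type} [MetricSpace X] (f : X → X) (x y : X) (δ : ℝ) (n : ℕ) : ℝ :=
  (((Finset.range (n + 1)).filter fun k => dist (f^[k] x) (f^[k] y) < δ).card : ℝ) / n

noncomputable def Phi {X : Type} [MetricSpace X] (f : X → X) (x y : X) (δ : ℝ) : ℝ :=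
  liminf (cnt f x y δ) atTop

noncomputable def PhiS {X : Type} [MetricSpace X] (f : X → X) (x y : X) (δ : ℝ) : ℝ :=
  limsup (cnt f x y δ) atTop

def DC2 {X : Type} [MetricSpace X] (f : X → X) (x y : X) : Prop :=
  x ≠ y ∧ (∀ δ, 0 < δ → δ ≤ diam (univ : Set X) → PhiS f x y δ = 1) ∧
    ∃ ε, 0 < ε ∧ ε ≤ diam (univ : Set X) ∧ Phi f x y ε < 1

def DC25 {X : Type} [MetricSpace X] (f : X → X) (x y : X) : Prop :=
  x ≠ y ∧ ∃ a b : ℝ, Tendsto (Phi f x y) (𝓝[>] 0) (𝓝 a) ∧ Tendsto (PhiS f x y) (𝓝[>] 0) (𝓝 b) ∧ a < b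

theorem fr_bd (p : ℕ → Prop) (n : ℕ) : 0 ≤ fr p n ∧ fr p n ≤ 2 := by
  classical
  refine ⟨by unfold fr; positivity, ?_⟩
  rcases n.eq_zero_or_pos with rfl | hn
  · simp [fr]
  have h1 : (1 : ℝ) ≤ n := by exact_mod_cast hn
  have h2 : (((Finset.range (n + 1)).filter p).card : ℝ) ≤ n + 1 := by
    exact_mod_cast (Finset.card_filter_le _ _).trans (Finset.card_range _).le
  rw [fr, div_le_iff₀ (by linarith)]
  convert h2.trans (by linarith : (n : ℝ) + 1 ≤ 2 * n)

theorem bd1 (p : ℕ → Prop) : IsBoundedUnder (· ≤ ·) atTop (fr p) :=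
  isBoundedUnder_of ⟨2, fun n => (fr_bd p n).2⟩

theorem bd2 (p : ℕ → Prop) : IsBoundedUnder (· ≥ ·) atTop (fr p) :=
  isBoundedUnder_of ⟨0, fun n => (fr_bd p n).1⟩

theorem fr_mono {p q : ℕ → Prop} (h : ∀ k, p k → q k) (n : ℕ) : fr p n ≤ fr q n := by
  classical
  unfold fr
  gcongr
  exact h _

theorem cnt_eq {X : Type} [MetricSpace X] (f : X → X) (x y : X) (δ : ℝ) :
    cnt f x y δ = fr fun k => dist (f^[k] x) (f^[k] y) < δ := by
  ext n; unfold cnt fr; congr

theorem fr_le (p : ℕ → Prop) {n a b : ℕ} (hb : b ≤ n + 1) (h : ∀ k, a ≤ k → k < b → ¬ p k) :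
    fr p n ≤ (n + 1 - (b - a : ℝ)) / n := by
  classical
  rcases le_total b a with hab | hab
  · have : (b : ℝ) ≤ a := by exact_mod_cast hab
    have h2 : (((Finset.range (n + 1)).filter p).card : ℝ) ≤ n + 1 := by
      exact_mod_cast (Finset.card_filter_le _ _).trans (Finset.card_range _).le
    unfold fr
    gcongr
    convert h2.trans (by linarith : (n : ℝ) + 1 ≤ n + 1 - (b - a))
  have h1 : (Finset.range (n + 1)).filter p ⊆ Finset.range (n + 1) \ Finset.Ico a b := by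
    intro k hk
    rw [Finset.mem_filter] at hk
    exact Finset.mem_sdiff.2 ⟨hk.1, fun h2 => h k (Finset.mem_Ico.1 h2).1 (Finset.mem_Ico.1 h2).2 hk.2⟩
  have h2 := Finset.card_le_card h1
  rw [Finset.card_sdiff_of_subset (fun k hk => by
    have := (Finset.mem_Ico.1 hk).2
    simp; omega), Finset.card_range, Nat.card_Ico] at h2
  have h3 : ((Finset.range (n + 1)).filter p).card + b ≤ n + 1 + a := by omega
  have h4 : (((Finset.range (n + 1)).filter p).card : ℝ) + b ≤ n + 1 + a := by exact_mod_cast h3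
  unfold fr
  gcongr
  convert (by linarith : (((Finset.range (n + 1)).filter p).card : ℝ) ≤ n + 1 - (b - a))

theorem fr_ge (p : ℕ → Prop) {n : ℕ} (S : Finset ℕ) (h : ∀ k ≤ n, k ∉ S → p k) :
    (n + 1 - S.card : ℝ) / n ≤ fr p n := by
  classical
  have h1 : Finset.range (n + 1) \ S ⊆ (Finset.range (n + 1)).filter p := by
    intro k hk
    rw [Finset.mem_sdiff] at hk
    exact Finset.mem_filter.2 ⟨hk.1, h k (by have := Finset.mem_range.1 hk.1; omega) hk.2⟩
  have h2 := (Finset.le_card_sdiff _ _).trans (Finset.card_le_card h1)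
  rw [Finset.card_range] at h2
  have h3 : n + 1 ≤ ((Finset.range (n + 1)).filter p).card + S.card := by omega
  have h4 : (n : ℝ) + 1 ≤ ((Finset.range (n + 1)).filter p).card + S.card := by exact_mod_cast h3
  unfold fr
  gcongr
  convert (by linarith : (n + 1 - S.card : ℝ) ≤ ((Finset.range (n + 1)).filter p).card)

theorem one_le (p : ℕ → Prop) (S : ℕ → Finset ℕ) (h : ∀ n, ∀ k ≤ n, k ∉ S n → p k)
    (hS : Tendsto (fun n : ℕ => ((S n).card : ℝ) / n) atTop (𝓝 0)) : 1 ≤ liminf (fr p) atTop := by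
  have h1 := hS.const_sub 1
  rw [sub_zero] at h1
  rw [← h1.liminf_eq]
  refine liminf_le_liminf ?_ h1.isBoundedUnder_ge (bd1 p).isCoboundedUnder_ge
  filter_upwards [eventually_gt_atTop 0] with n hn
  refine le_trans ?_ (fr_ge p (S n) (h n))
  have : (0 : ℝ) < n := by exact_mod_cast hn
  rw [le_div_iff₀ this, sub_mul, div_mul_cancel₀ _ this.ne']; linarith

theorem L_eq {j k : ℕ} (h1 : 3 ^ j ≤ k + 1) (h2 : k + 1 < 3 ^ (j + 1)) : L k = j :=
  Nat.log_eq_of_pow_le_of_lt_pow h1 h2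

theorem L_bd (k : ℕ) : 3 ^ L k ≤ k + 1 ∧ k + 1 < 3 ^ (L k + 1) :=
  ⟨Nat.pow_log_le_self 3 (by omega), Nat.lt_pow_succ_log_self (by norm_num) _⟩

theorem L_mono {k l : ℕ} (h : k ≤ l) : L k ≤ L l := Nat.log_mono_right (by omega)

theorem L_top : Tendsto L atTop atTop := tendsto_atTop_atTop.2 fun j =>
  ⟨3 ^ j, fun k hk => Nat.le_log_of_pow_le (by norm_num) (by omega)⟩

theorem small (p : ℕ → Prop) (a M : ℕ) (c : ℝ) (h : ∀ k, M ≤ k → p k → |e (a + k) - c| < 1) :
    limsup (fr p) atTop < 1 := by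
  refine lt_of_le_of_lt (limsup_le_of_le (a := 26 / 27) (bd2 p).isCoboundedUnder_le ?_) (by norm_num)
  filter_upwards [L_top.eventually_ge_atTop (a + M + 2), eventually_ge_atTop 25] with n h1 h2
  obtain ⟨m, hm⟩ : ∃ m, L n = m + 2 := ⟨L n - 2, by omega⟩
  obtain ⟨j, j1, j2, j3⟩ : ∃ j, m ≤ j ∧ j ≤ m + 1 ∧ ¬ |(-1 : ℝ) ^ j - c| < 1 := by
    by_contra hc
    push Not at hc
    have c1 := abs_lt.1 (hc m le_rfl (by omega))
    have c2 := abs_lt.1 (hc (m + 1) (by omega) le_rfl)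
    rw [pow_succ] at c2
    rcases neg_one_pow_eq_or ℝ m with h | h <;> rw [h] at c1 c2 <;> linarith [c1.1, c1.2, c2.1, c2.2]
  have b1 := L_bd n
  rw [hm] at b1
  have b2 : 3 ^ (j + 1) ≤ 3 ^ (m + 2) := Nat.pow_le_pow_right (by norm_num) (by omega)
  have b3 : 3 ^ m ≤ 3 ^ j := Nat.pow_le_pow_right (by norm_num) j1
  have b4 : m < 3 ^ m := Nat.lt_pow_self (by norm_num)
  have b5 := fr_le p (n := n) (a := 3 ^ j - 1 - a) (b := 3 ^ (j + 1) - 1 - a) (by omega)
    fun k k1 k2 hp => j3 (by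
      have := h k (by omega) hp
      rwa [e, L_eq (j := j) (by omega) (by omega)] at this)
  refine b5.trans ?_
  have b6 : ((3 ^ (j + 1) - 1 - a : ℕ) : ℝ) - (3 ^ j - 1 - a : ℕ) = (2 * 3 ^ j : ℕ) := by
    rw [sub_eq_iff_eq_add]; norm_cast; rw [pow_succ]; omega
  have b7 : 2 * (n + 1) ≤ 27 * (2 * 3 ^ j) := by
    have := b1.2
    simp only [pow_succ] at this
    omega
  have b8 : (2 : ℝ) * (n + 1) ≤ 27 * (2 * 3 ^ j : ℕ) := by exact_mod_cast b7
  have b9 : (25 : ℝ) ≤ n := by exact_mod_cast h2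
  rw [b6, div_le_iff₀ (by linarith)]; linarith

theorem big (p : ℕ → Prop) (W : ℕ) (h : ∀ k, L k = L (k + W) → p k) : 1 ≤ liminf (fr p) atTop := by
  refine one_le p (fun n => (Finset.range (L (n + W) + 1)).biUnion fun j =>
    Finset.Ico (3 ^ j - (W + 1)) (3 ^ j)) (fun n k hk hS => h k ?_) ?_
  · by_contra hc
    have c1 : L k + 1 ≤ L (k + W) := (L_mono (Nat.le_add_right k W)).lt_of_ne hc
    have c2 := Nat.pow_le_pow_right (by norm_num : 0 < 3) c1
    have c3 := L_bd k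
    have c4 := L_bd (k + W)
    exact hS (Finset.mem_biUnion.2 ⟨L (k + W), Finset.mem_range.2 (Nat.lt_succ_of_le
      (L_mono (by omega))), Finset.mem_Ico.2 ⟨by omega, by omega⟩⟩)
  · have t1 := (tendsto_pow_const_div_const_pow_of_one_lt 1 (r := 3) (by norm_num)).comp
      ((tendsto_add_atTop_nat 1).comp (L_top.comp (tendsto_add_atTop_nat W)))
    have t2 := t1.mul_const (3 * (W + 1) * (W + 2) : ℝ)
    rw [zero_mul] at t2
    refine squeeze_zero' (Eventually.of_forall fun n => by positivity) ?_ t2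
    filter_upwards [eventually_ge_atTop 1] with n hn
    have c1 := Finset.card_biUnion_le_card_mul (Finset.range (L (n + W) + 1))
      (fun j => Finset.Ico (3 ^ j - (W + 1)) (3 ^ j)) (W + 1) fun j _ => by
        rw [Nat.card_Ico]; omega
    rw [Finset.card_range] at c1
    have c2 : (((Finset.range (L (n + W) + 1)).biUnion fun j => Finset.Ico (3 ^ j - (W + 1))
      (3 ^ j)).card : ℝ) ≤ (L (n + W) + 1) * (W + 1) := by exact_mod_cast c1
    have c3 : (3 : ℝ) ^ L (n + W) ≤ n + W + 1 := by exact_mod_cast (L_bd (n + W)).1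
    have c4 : (1 : ℝ) ≤ n := by exact_mod_cast hn
    have c5 : (0 : ℝ) ≤ W := by positivity
    simp only [Function.comp, pow_one, pow_succ]
    push_cast
    rw [div_le_iff₀ (by linarith)]
    refine c2.trans ?_
    have c6 : (3 : ℝ) ^ L (n + W) ≤ (W + 2) * n := by nlinarith
    rw [pow_zero, one_mul, div_mul_eq_mul_div, div_mul_eq_mul_div, le_div_iff₀ (by positivity)]
    calc _ = (L (n + W) + 1) * (W + 1) * 3 * (3 : ℝ) ^ L (n + W) := by ring
      _ ≤ (L (n + W) + 1) * (W + 1) * 3 * ((W + 2) * n) := by gcongr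
      _ = _ := by ring

theorem classify {z : ℕ → ℝ} (hz : z ∈ XS) :
    (∃ M c, (c = 0 ∨ |c| = 1) ∧ ∀ n, M ≤ n → z n = c) ∨ ∃ a, ∀ n, z n = e (a + n) := by
  by_cases h1 : ∀ n, |z n| = 1
  swap
  · push Not at h1
    obtain ⟨j, hj⟩ := h1
    exact Or.inl ⟨j + 1, 0, Or.inl rfl, fun n hn => post hz hj n hn⟩
  have h2 : ∀ N, ∃ k, ∀ n < N, z n = e (k + n) := fun N => by
    obtain ⟨k, hk⟩ := hz.2.2 N
    refine ⟨k, fun n hn => ?_⟩
    have a1 := hk n hn
    have := h1 n
    rcases e_or (k + n) with h | h <;> rw [h] at a1 ⊢ <;> rcases abs_cases (z n) with h3 | h3 <;>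
      linarith
  by_cases h3 : ∃ i j, i < j ∧ z i ≠ z (i + 1) ∧ z j ≠ z (j + 1)
  · obtain ⟨i, j, hij, hi, hj⟩ := h3
    have ch : ∀ k, e k ≠ e (k + 1) → k + 2 = 3 ^ L (k + 1) := fun k hk => by
      have c1 : L k + 1 ≤ L (k + 1) := (L_mono (Nat.le_succ k)).lt_of_ne fun h => hk (by rw [e, e, h])
      have c2 := Nat.pow_le_pow_right (by norm_num : 0 < 3) c1
      have := L_bd k
      have := L_bd (k + 1)
      omega
    right
    by_contra hc
    push Not at hc
    choose m hm using hc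
    obtain ⟨k, hk⟩ := h2 ((Finset.range j).sup m + j + 2)
    rw [hk i (by omega), hk _ (by omega)] at hi
    rw [hk j (by omega), hk _ (by omega)] at hj
    have c1 := ch _ hi
    have c2 := ch _ hj
    have c3 : L (k + i + 1) + 1 ≤ L (k + j + 1) :=
      (Nat.pow_lt_pow_iff_right (by norm_num : 1 < 3)).1 (by omega)
    have c4 := Nat.pow_le_pow_right (by norm_num : 0 < 3) c3
    rw [pow_succ] at c4
    have c5 := Finset.le_sup (f := m) (Finset.mem_range.2 (by omega : k < j))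
    exact hm k (hk _ (by omega))
  · left
    obtain ⟨M, hM⟩ : ∃ M, ∀ n, M ≤ n → z n = z (n + 1) := by
      by_cases h4 : ∃ i, z i ≠ z (i + 1)
      · obtain ⟨i, hi⟩ := h4
        exact ⟨i + 1, fun n hn => by_contra fun hc => h3 ⟨i, n, hn, hi, hc⟩⟩
      · exact ⟨0, fun n _ => by_contra fun hc => h4 ⟨n, hc⟩⟩
    refine ⟨M, z M, Or.inr (h1 M), fun n hn => ?_⟩
    induction n, hn using Nat.le_induction with
    | base => rfl
    | succ n hn ih => rw [← hM n hn, ih]

def sh (z : XS) : XS := ⟨fun n => z.1 (n + 1), fun n => z.2.1 _, fun n => z.2.2.1 _, fun N => by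
  obtain ⟨k, hk⟩ := z.2.2.2 (N + 1)
  exact ⟨k + 1, fun n hn => by rw [add_right_comm, add_assoc]; exact hk (n + 1) (by omega)⟩⟩

theorem sh_iter (k : ℕ) (z : XS) (n : ℕ) : (sh^[k] z).1 n = z.1 (k + n) := by
  induction k generalizing z with
  | zero => simp
  | succ k ih => rw [Function.iterate_succ_apply, ih, add_right_comm]; rfl

theorem main : ∃ (X : Type) (_ : MetricSpace X), CompactSpace X ∧ ConnectedSpace X ∧
    LocallyConnectedSpace X ∧ (∀ S : Set X, IsEmpty (S ≃ₜ Circle)) ∧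
    ∃ f : X → X, Continuous f ∧ (∃ x y, DC25 f x y) ∧ ¬ ∃ x y, DC2 f x y := by
  letI : MetricSpace XS := TopologicalSpace.metrizableSpaceMetric XS
  have hcs : CompactSpace XS := isCompact_iff_compactSpace.1 compact
  have M1 : ∀ ε : ℝ, 0 < ε → ∃ N, ∀ z w : XS, (∀ n < N, z.1 n = w.1 n) → dist z w < ε := by
    intro ε hε
    by_contra hc
    push Not at hc
    have cl : ∀ N, IsClosed {p : XS × XS | (∀ n < N, p.1.1 n = p.2.1 n) ∧ ε ≤ dist p.1 p.2} := by
      intro N
      simp only [ofPred_and, ofPred_forall]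
      exact (isClosed_iInter fun n => isClosed_iInter fun _ => isClosed_eq
        ((cont n).comp continuous_fst) ((cont n).comp continuous_snd)).inter
        (isClosed_le continuous_const continuous_dist)
    obtain ⟨p, hp⟩ := IsCompact.nonempty_iInter_of_sequence_nonempty_isCompact_isClosed
      (fun N => {p : XS × XS | (∀ n < N, p.1.1 n = p.2.1 n) ∧ ε ≤ dist p.1 p.2})
      (fun N p hp => ⟨fun n hn => hp.1 n (by omega), hp.2⟩)
      (fun N => by obtain ⟨z, w, h⟩ := hc N; exact ⟨(z, w), h⟩) (cl 0).isCompact cl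
    rw [mem_iInter] at hp
    have : p.1 = p.2 := Subtype.ext (funext fun n => (hp (n + 1)).1 n (by omega))
    have h2 := (hp 0).2
    rw [this, dist_self] at h2
    linarith
  obtain ⟨δ0, d0, M2⟩ : ∃ δ : ℝ, 0 < δ ∧ ∀ z w : XS, dist z w < δ → |z.1 0 - w.1 0| < 1 := by
    obtain ⟨δ, h1, h2⟩ := Metric.uniformContinuous_iff.1
      (@CompactSpace.uniformContinuous_of_continuous XS ℝ PseudoMetricSpace.toUniformSpace _ hcs _
        (cont 0)) 1 one_pos
    exact ⟨δ, h1, fun z w h => h2 h⟩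
  have M3 : ∀ (z w : XS) k {δ : ℝ}, δ ≤ δ0 → dist (sh^[k] z) (sh^[k] w) < δ → |z.1 k - w.1 k| < 1 :=
    fun z w k δ h1 h2 => by simpa [sh_iter] using M2 _ _ (h2.trans_le h1)
  have ex : e ∈ XS := ⟨fun n => by rcases e_or n with h | h <;> simp [h],
    fun n => Or.inr (by rcases e_or n with h | h <;> simp [h]),
    fun N => ⟨0, fun n _ => by rw [zero_add]; exact mul_self_nonneg _⟩⟩
  have ey : (fun _ => 1 : ℕ → ℝ) ∈ XS := ⟨by simp, by simp, fun N => ⟨3 ^ (2 * N) - 1, fun n hn => by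
    have : 2 * N < 3 ^ (2 * N) := Nat.lt_pow_self (by norm_num)
    rw [e, L_eq (j := 2 * N) (by omega) (by rw [pow_succ]; omega)]
    simp⟩⟩
  refine ⟨XS, inferInstance, hcs, inferInstance, inferInstance, fun S => ⟨fun h => no_circle
    (fun t => (h.symm t).1) (by fun_prop) (Subtype.val_injective.comp h.symm.injective)⟩, sh,
    Continuous.subtype_mk (continuous_pi fun n => cont _) _, ⟨⟨e, ex⟩, ⟨_, ey⟩, ?_⟩, ?_⟩
  · have m1 : Monotone (Phi sh ⟨e, ex⟩ ⟨_, ey⟩) := fun δ δ' h => by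
      simp only [Phi, cnt_eq]
      exact liminf_le_liminf (Eventually.of_forall (fr_mono fun k hk => hk.trans_le h)) (bd2 _)
        (bd1 _).isCoboundedUnder_ge
    have m2 : Monotone (PhiS sh ⟨e, ex⟩ ⟨_, ey⟩) := fun δ δ' h => by
      simp only [PhiS, cnt_eq]
      exact limsup_le_limsup (Eventually.of_forall (fr_mono fun k hk => hk.trans_le h))
        (bd2 _).isCoboundedUnder_le (bd1 _)
    have pw : ∀ j : ℕ, ((3 ^ (j + 1) - 2 : ℕ) : ℝ) = 3 * 3 ^ j - 2 ∧ (1 : ℝ) ≤ 3 ^ j := fun j => by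
      have : 1 ≤ 3 ^ j := Nat.one_le_pow _ _ (by norm_num)
      refine ⟨?_, by exact_mod_cast this⟩
      rw [Nat.cast_sub (by rw [pow_succ]; omega)]; push_cast; ring
    refine ⟨fun h => ?_, _, _, m1.tendsto_nhdsGT 0, m2.tendsto_nhdsGT 0,
      lt_of_le_of_lt (b := 2 / 5) ?_ (lt_of_lt_of_le (b := 3 / 5) (by norm_num) ?_)⟩
    · have := congrFun (Subtype.ext_iff.1 h) 2
      simp only [e, L_eq (j := 1) (k := 2) (by norm_num) (by norm_num)] at this
      norm_num at this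
    · refine le_of_tendsto (m1.tendsto_nhdsGT 0) ?_
      filter_upwards [Ioo_mem_nhdsGT d0] with δ hδ
      rw [Phi, cnt_eq]
      refine liminf_le_of_frequently_le (frequently_atTop.2 fun N => ?_) (bd2 _)
      have c1 : 2 * N + 1 < 3 ^ (2 * N + 1) := Nat.lt_pow_self (by norm_num)
      refine ⟨3 ^ (2 * N + 1 + 1) - 2, by rw [pow_succ]; omega, (fr_le _ (a := 3 ^ (2 * N + 1) - 1)
        (b := 3 ^ (2 * N + 1 + 1) - 1) (by omega) fun k k1 k2 hp => ?_).trans ?_⟩
      · have := M3 _ _ k hδ.2.le hp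
        simp only [e, L_eq (j := 2 * N + 1) (k := k) (by omega) (by omega)] at this
        norm_num [pow_succ] at this
      · obtain ⟨c2, c3⟩ := pw (2 * N + 1)
        rw [c2, Nat.cast_sub (by omega), Nat.cast_sub (by omega), div_le_iff₀ (by linarith),
          pow_succ 3 (2 * N + 1)]
        push_cast; linarith
    · refine ge_of_tendsto (m2.tendsto_nhdsGT 0) ?_
      filter_upwards [self_mem_nhdsWithin] with δ hδ
      obtain ⟨W, hW⟩ := M1 δ hδ
      rw [PhiS, cnt_eq]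
      refine le_limsup_of_frequently_le (frequently_atTop.2 fun N => ?_) (bd1 _)
      obtain ⟨j, hj⟩ : ∃ j, j = 2 * (N + 3 * W) := ⟨_, rfl⟩
      have c1 : j < 3 ^ j := Nat.lt_pow_self (by norm_num)
      refine ⟨3 ^ (j + 1) - 2, by rw [pow_succ]; omega, le_trans ?_ (fr_ge _
        (Finset.range (3 ^ j) ∪ Finset.Ico (3 ^ (j + 1) - 1 - W) (3 ^ (j + 1) - 1))
        fun k k1 k2 => hW _ _ fun n hn => ?_)⟩
      · obtain ⟨c2, c3⟩ := pw j
        have c4 := Finset.card_union_le (Finset.range (3 ^ j))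
          (Finset.Ico (3 ^ (j + 1) - 1 - W) (3 ^ (j + 1) - 1))
        rw [Finset.card_range, Nat.card_Ico] at c4
        have c5 : 5 * (Finset.range (3 ^ j) ∪ Finset.Ico (3 ^ (j + 1) - 1 - W)
          (3 ^ (j + 1) - 1)).card ≤ 6 * 3 ^ j := by omega
        have c6 : (5 : ℝ) * (Finset.range (3 ^ j) ∪ Finset.Ico (3 ^ (j + 1) - 1 - W)
          (3 ^ (j + 1) - 1)).card ≤ 6 * 3 ^ j := by exact_mod_cast c5
        rw [c2, le_div_iff₀ (by linarith)]; linarith
      · simp only [Finset.mem_union, Finset.mem_range, Finset.mem_Ico] at k2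
        rw [sh_iter, sh_iter]
        simp only [e, L_eq (j := j) (k := k + n) (by omega) (by omega)]
        rw [hj]; simp
  · rintro ⟨z, w, -, h1, ε, e0, e1, h2⟩
    have h3 := h1 (min δ0 ε) (lt_min d0 e0) ((min_le_right _ _).trans e1)
    rw [PhiS, cnt_eq] at h3
    rw [Phi, cnt_eq] at h2
    obtain ⟨W, hW⟩ := M1 ε e0
    rcases classify z.2 with ⟨M, c, c1, c2⟩ | ⟨a, ha⟩ <;>
      rcases classify w.2 with ⟨M', c', c3, c4⟩ | ⟨b, hb⟩
    · by_cases hc : c = c'
      · refine not_le.2 h2 (one_le _ (fun _ => Finset.range (M + M')) (fun n k _ hk => hW _ _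
          fun i _ => ?_) (by simpa using tendsto_const_div_atTop_nhds_zero_nat ((M : ℝ) + M')))
        simp only [Finset.mem_range] at hk
        rw [sh_iter, sh_iter, c2 _ (by omega), c4 _ (by omega), hc]
      · refine (small _ 0 (M + M') 0 fun k hk hp => ?_).ne h3
        have := abs_lt.1 (M3 _ _ k (min_le_left _ _) hp)
        rw [c2 _ (by omega), c4 _ (by omega)] at this
        exfalso
        apply hc
        rcases abs_cases c with h | h <;> rcases abs_cases c' with h' | h' <;>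
          rcases c1 with c1 | c1 <;> rcases c3 with c3 | c3 <;> linarith [this.1, this.2]
    · refine (small _ b M c fun k hk hp => ?_).ne h3
      rw [← hb, ← c2 k hk, abs_sub_comm]
      exact M3 _ _ k (min_le_left _ _) hp
    · refine (small _ a M' c' fun k hk hp => ?_).ne h3
      rw [← ha, ← c4 k hk]
      exact M3 _ _ k (min_le_left _ _) hp
    · refine not_le.2 h2 (big _ (a + b + W) fun k hk => hW _ _ fun i hi => ?_)
      have q : ∀ l, k ≤ l → l ≤ k + (a + b + W) → L l = L k := fun l l1 l2 =>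
        le_antisymm (hk ▸ L_mono l2) (L_mono l1)
      rw [sh_iter, sh_iter, ha, hb, e, e, q (a + _) (by omega) (by omega), q (b + _) (by omega) (by omega)]

end Pool.Agent.H.MP_fd67f7_an
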